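import Pool.Agent.Helper44.CL.Asm
import Pool.Agent.Helper49.CL.Arith
import Pool.Agent.Helper17.CL.Lit

/-!
# Project CL: the interface for the constructibility relation, up to names
-/

set_option autoImplicit false

namespace Pool.Agent.Helper44.CL

open Pool.Agent.Helper17.CL hiding cons cons_zero cons_succ join L2 L2_countable L2_sub
open Pool.Agent.Helper17.CL.Cod (code)

theorem mem_L2_iff {D : Set (Set ℕ)} : D ∈ L2 ↔ D ∈ Pool.Agent.Helper17.CL.L2 := by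
  have h := lc_inner ∅
  constructor
  · rintro ⟨_, h2⟩
    exact ⟨rset D, h2, fun x => rl_mem_rset.symm⟩
  · intro hD
    refine ⟨fun x hx => Pool.Agent.Helper17.CL.L2_sub hD hx, ?_⟩
    obtain ⟨c, hc, hD⟩ := hD
    have h1 := Cod.am (α := Set ℕ) h c hc
    refine mem_of_eq ?_ h1
    ext z
    rw [mem_rset, ZFSet.mem_sep]
    constructor
    · rintro ⟨x, hx, rfl⟩
      exact ⟨(hD x).1 hx, x, rfl⟩
    · rintro ⟨hz, x, rfl⟩
      exact ⟨x, (hD x).2 hz, rfl⟩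

theorem ArN.toArith {M : Set ZFSet.{0}} (h : IsInner M) {R : (ℕ → Set ℕ) → ℕ → Prop}
    (hR : ArN R) {ρ : ℕ → Set ℕ} (hρ : ∀ i, rl (ρ i) ∈ M) {g : ℕ → ℕ} (hg : AmF M g) :
    Arith M (fun x p => R (cons x ρ) (g p)) := by
  induction hR generalizing g with
  | prim hp => exact Arith.am (Am.primrecPred h hp hg)
  | orac i =>
    cases i with
    | zero => exact Arith.mem hg
    | succ i => exact Arith.am (Am.mem_set h hg (AmF.const h (ρ i) (hρ i)))
  | not _ ih => exact Arith.not (ih hg)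
  | and _ _ ih1 ih2 => exact Arith.and (ih1 hg) (ih2 hg)
  | @comp R f hf _ ih => exact ih (g := fun p => f (g p)) (AmF.primrec h hf hg)
  | @ex R _ ih =>
    have h1 := Arith.ex (ih (g := fun q => Nat.pair (g q.unpair.1) q.unpair.2)
      (AmF.natPair h (hg.comp h ((AmF.fst h).comp h (AmF.natUnpair h (AmF.id h))))
        ((AmF.snd h).comp h (AmF.natUnpair h (AmF.id h)))))
    simpa using h1

theorem sigma_conFrom {R : (ℕ → Set ℕ) → ℕ → Prop} (hR : ArN R) (ρ : ℕ → Set ℕ) (n : ℕ)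
    (hρ : ∀ i, ConFrom (ρ i) ∅) (hex : ∃ x, R (cons x ρ) n) :
    ∃ x, ConFrom x ∅ ∧ R (cons x ρ) n := by
  have h := lc_inner ∅
  obtain ⟨x, hx⟩ := hex
  exact (hR.toArith h hρ (g := fun p => p) (AmF.id h)).exists_mem h (x := x) hx

theorem dc_conFrom {R : (ℕ → Set ℕ) → ℕ → Prop} (hR : T3 {x | ConFrom x ∅} L2 R)
    (ρ : ℕ → Set ℕ) (hρ : ∀ i, ConFrom (ρ i) ∅)
    (htot : ∀ n, ∀ x, ConFrom x ∅ → ∃ y, ConFrom y ∅ ∧ R (cons x (cons y ρ)) n)
    (x₀ : Set ℕ) (hx₀ : ConFrom x₀ ∅) :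
    ∃ s : ℕ → Set ℕ, ConFrom (join s) ∅ ∧ s 0 = x₀ ∧
      ∀ n, R (cons (s n) (cons (s (n + 1)) ρ)) n := by
  refine dc_of_choice (fun {R} hR => ?_) hR ρ hρ htot x₀ hx₀
  obtain ⟨f, hf, hf'⟩ := lc_choice (y := ∅) (R := R) hR ∅ (ConFrom.refl ∅)
  exact ⟨f, hf, fun x _ hy => hf' x hy⟩

/-- The statement of the field `names`. -/
def NamesFor (cle : Set ℕ → Set ℕ → Prop) (L2 : Set (Set (Set ℕ))) : Prop :=
  ∀ (P : Set (Set ℕ)) (le : Set ℕ → Set ℕ → Prop), P ∈ L2 → RelIn L2 P le →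
    (∀ p ∈ P, le p p) → (∀ p ∈ P, ∀ q ∈ P, ∀ r ∈ P, le p q → le q r → le p r) →
    ∀ G, Generic L2 P le G → ∀ E : ℕ → Set (Set ℕ), SeqIn L2 E →
    ∀ z, cle z {n | ∃ p ∈ G, p ∈ E n} →
    ∃ D : Bool → ℕ → Set (Set ℕ), (∀ e, SeqIn L2 (D e)) ∧
      (∀ n, Dense P le (D true n ∪ D false n)) ∧
      (∀ n, n ∈ z ↔ ∃ p ∈ G, p ∈ D true n) ∧ (∀ n, n ∉ z ↔ ∃ p ∈ G, p ∈ D false n)

/-- The interface holds for the constructibility relation. -/
theorem iface_conFrom (hω : ∀ r : Set ℕ, omegaOneL r < Ordinal.omega 1)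
    (hn : NamesFor ConFrom L2) : Iface ConFrom L2 where
  refl := ConFrom.refl
  trans := fun _ _ _ h1 h2 => ConFrom.trans h1 h2
  arith := arith_conFrom
  countable := fun z => countable_conFrom (hω z)
  L2_countable := L2_countable_of fun z => countable_conFrom (hω z)
  L2_sub := fun _ hD _ hx => hD.1 _ hx
  compr := compr_conFrom
  dc := dc_conFrom
  sigma := sigma_conFrom
  names := hn

end Pool.Agent.Helper44.CL
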