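import Mathlib

/-!
# Project CL: arithmetical relations, and third-order definable relations

`ArN`, `Ar`: arithmetical relations in a number (an element of a `Primcodable` type) and a sequence
`ρ` of reals (= sets of natural numbers).  `T3`: relations definable from arithmetical ones and
membership in given sets of reals, by quantifiers over the natural numbers and over the reals in a
given class `RL`.
-/

set_option autoImplicit false

namespace Pool.Agent.Helper44.CL

open Encodable Denumerable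

universe u u₁ u₂ u₃

/-- Add a new element at the beginning of a sequence. -/
def cons {α : Type u} (x : α) (v : ℕ → α) : ℕ → α
  | 0 => x
  | n + 1 => v n

@[simp] theorem cons_zero {α : Type u} (x : α) (v : ℕ → α) : cons x v 0 = x := rfl
@[simp] theorem cons_succ {α : Type u} (x : α) (v : ℕ → α) (n : ℕ) : cons x v (n+1) = v n := rfl

/-- Arithmetical relations in one number and a sequence of reals. -/
inductive ArN : ((ℕ → Set ℕ) → ℕ → Prop) → Prop
  | prim {p : ℕ → Prop} : PrimrecPred p → ArN (fun _ n => p n)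
  | orac (i : ℕ) : ArN (fun ρ n => n ∈ ρ i)
  | not {R : (ℕ → Set ℕ) → ℕ → Prop} : ArN R → ArN (fun ρ n => ¬ R ρ n)
  | and {R S : (ℕ → Set ℕ) → ℕ → Prop} : ArN R → ArN S → ArN (fun ρ n => R ρ n ∧ S ρ n)
  | comp {R : (ℕ → Set ℕ) → ℕ → Prop} {f : ℕ → ℕ} : Primrec f → ArN R →
      ArN (fun ρ n => R ρ (f n))
  | ex {R : (ℕ → Set ℕ) → ℕ → Prop} : ArN R → ArN (fun ρ n => ∃ m, R ρ (Nat.pair n m))

theorem ArN.of_eq {R S : (ℕ → Set ℕ) → ℕ → Prop} (h : ArN R) (e : ∀ ρ n, S ρ n ↔ R ρ n) :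
    ArN S := by
  have : S = R := by
    funext ρ n
    exact propext (e ρ n)
  rw [this]; exact h

/-- Arithmetical relations in an element of a `Primcodable` type and a sequence of reals. -/
def Ar {α : Type u} [Primcodable α] (R : (ℕ → Set ℕ) → α → Prop) : Prop :=
  ArN fun ρ n => ∃ a : α, decode n = some a ∧ R ρ a

/-- Real-valued arithmetical functions. -/
def ArS {α : Type u} [Primcodable α] (F : (ℕ → Set ℕ) → α → Set ℕ) : Prop :=
  Ar fun ρ (p : α × ℕ) => p.2 ∈ F ρ p.1

section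

variable {α : Type u₁} {β : Type u₂} {γ : Type u₃} [Primcodable α] [Primcodable β] [Primcodable γ]

theorem Ar.of_eq {R S : (ℕ → Set ℕ) → α → Prop} (h : Ar R) (e : ∀ ρ a, S ρ a ↔ R ρ a) :
    Ar S := by
  have : S = R := by
    funext ρ n
    exact propext (e ρ n)
  rw [this]; exact h

theorem primrecPred_dom : PrimrecPred (fun n : ℕ => ∃ a : α, decode n = some a) := by
  have h : PrimrecPred (fun n : ℕ => (decode n : Option α).isSome = true) :=
    Primrec.primrecPred ((Primrec.option_isSome.comp Primrec.decode).of_eq fun n => by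
      cases (decode n : Option α) <;> simp)
  exact h.of_eq fun n => Option.isSome_iff_exists

theorem ar_iff_arN {R : (ℕ → Set ℕ) → ℕ → Prop} : Ar R ↔ ArN R := by
  unfold Ar
  constructor
  · intro h
    exact h.of_eq fun ρ n => by simp
  · intro h
    exact h.of_eq fun ρ n => by simp

theorem Ar.of_encode {R : (ℕ → Set ℕ) → α → Prop} {S : (ℕ → Set ℕ) → ℕ → Prop} (hS : ArN S)
    (e : ∀ ρ (a : α) (n : ℕ), decode n = some a → (R ρ a ↔ S ρ n)) : Ar R := by
  refine ((ArN.prim (primrecPred_dom (α := α))).and hS).of_eq fun ρ n => ?_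
  constructor
  · rintro ⟨a, ha, h⟩
    exact ⟨⟨a, ha⟩, (e ρ a n ha).1 h⟩
  · rintro ⟨⟨a, ha⟩, h⟩
    exact ⟨a, ha, (e ρ a n ha).2 h⟩

theorem Ar.not {R : (ℕ → Set ℕ) → α → Prop} (h : Ar R) : Ar (fun ρ a => ¬ R ρ a) := by
  refine Ar.of_encode (ArN.not h) fun ρ a n hn => ?_
  rw [not_iff_not]
  constructor
  · intro h; exact ⟨a, hn, h⟩
  · rintro ⟨b, hb, h⟩
    rw [hn] at hb
    exact (Option.some.inj hb) ▸ h

theorem Ar.and {R S : (ℕ → Set ℕ) → α → Prop} (h : Ar R) (h' : Ar S) :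
    Ar (fun ρ a => R ρ a ∧ S ρ a) := by
  refine Ar.of_encode (ArN.and h h') fun ρ a n hn => ?_
  constructor
  · rintro ⟨h, h'⟩; exact ⟨⟨a, hn, h⟩, ⟨a, hn, h'⟩⟩
  · rintro ⟨⟨b, hb, h⟩, ⟨c, hc, h'⟩⟩
    rw [hn] at hb hc
    exact ⟨(Option.some.inj hb) ▸ h, (Option.some.inj hc) ▸ h'⟩

theorem Ar.imp {R S : (ℕ → Set ℕ) → α → Prop} (h : Ar R) (h' : Ar S) :
    Ar (fun ρ a => R ρ a → S ρ a) :=
  (h.and h'.not).not.of_eq fun ρ a => by tauto

theorem Ar.or {R S : (ℕ → Set ℕ) → α → Prop} (h : Ar R) (h' : Ar S) :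
    Ar (fun ρ a => R ρ a ∨ S ρ a) :=
  (h.not.and h'.not).not.of_eq fun ρ a => by tauto

theorem Ar.iff {R S : (ℕ → Set ℕ) → α → Prop} (h : Ar R) (h' : Ar S) :
    Ar (fun ρ a => R ρ a ↔ S ρ a) :=
  ((h.imp h').and (h'.imp h)).of_eq fun ρ a => by tauto

theorem Ar.prim {p : α → Prop} (h : PrimrecPred p) : Ar (fun _ a => p a) := by
  classical
  obtain ⟨hd, hp⟩ := h
  have h1 : PrimrecPred (fun n : ℕ =>
      (((decode n : Option α).map fun a => decide (p a)).getD false : Bool) = true) :=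
    Primrec.primrecPred ((Primrec.option_getD.comp (Primrec.option_map Primrec.decode
        (Primrec.to₂ (hp.comp Primrec.snd))) (Primrec.const false)).of_eq fun n => by
          simp)
  refine Ar.of_encode (ArN.prim h1) fun ρ a n hn => ?_
  simp [hn]

theorem Ar.const (P : Prop) : Ar (fun _ (_ : α) => P) := by
  by_cases h : P
  · refine (Ar.prim (p := fun _ : α => True) ⟨inferInstance, ?_⟩).of_eq fun _ _ => by simp [h]
    exact (Primrec.const true).of_eq fun _ => by simp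
  · refine (Ar.prim (p := fun _ : α => False) ⟨inferInstance, ?_⟩).of_eq fun _ _ => by simp [h]
    exact (Primrec.const false).of_eq fun _ => by simp

theorem Ar.comp {R : (ℕ → Set ℕ) → β → Prop} (h : Ar R) {f : α → β} (hf : Primrec f) :
    Ar (fun ρ a => R ρ (f a)) := by
  have hg : Primrec (fun n : ℕ => (((decode n : Option α).map fun a => encode (f a)).getD 0)) :=
    Primrec.option_getD.comp (Primrec.option_map Primrec.decode
      (Primrec.to₂ ((Primrec.encode.comp hf).comp Primrec.snd))) (Primrec.const 0)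
  refine Ar.of_encode (ArN.comp hg h) fun ρ a n hn => ?_
  simp [hn]

theorem Ar.ex {R : (ℕ → Set ℕ) → α → β → Prop}
    (h : Ar (fun ρ (p : α × β) => R ρ p.1 p.2)) : Ar (fun ρ a => ∃ b, R ρ a b) := by
  refine Ar.of_encode (ArN.ex h) fun ρ a n hn => ?_
  constructor
  · rintro ⟨b, hb⟩
    refine ⟨encode b, (a, b), ?_, hb⟩
    rw [Encodable.decode_prod_val]
    simp [hn]
  · rintro ⟨m, p, hp, h⟩
    rw [Encodable.decode_prod_val] at hp
    simp only [Nat.unpair_pair, hn] at hp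
    cases hm : (decode m : Option β) with
    | none => simp [hm] at hp
    | some b =>
      simp only [hm, Option.map_some, Option.bind_some, Option.some.injEq] at hp
      subst hp
      exact ⟨b, h⟩

theorem Ar.all {R : (ℕ → Set ℕ) → α → β → Prop}
    (h : Ar (fun ρ (p : α × β) => R ρ p.1 p.2)) : Ar (fun ρ a => ∀ b, R ρ a b) :=
  (Ar.ex (R := fun ρ a b => ¬ R ρ a b) h.not).not.of_eq fun ρ a => by push Not; rfl

theorem Ar.orac (i : ℕ) {f : α → ℕ} (hf : Primrec f) : Ar (fun ρ a => f a ∈ ρ i) :=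
  (ar_iff_arN.2 (ArN.orac i)).comp hf

theorem Ar.eq [DecidableEq β] {f g : α → β} (hf : Primrec f) (hg : Primrec g) :
    Ar (fun _ a => f a = g a) := Ar.prim (Primrec.eq.comp hf hg)

theorem Ar.lt {f g : α → ℕ} (hf : Primrec f) (hg : Primrec g) :
    Ar (fun _ a => f a < g a) := Ar.prim (Primrec.nat_lt.comp hf hg)

theorem Ar.le {f g : α → ℕ} (hf : Primrec f) (hg : Primrec g) :
    Ar (fun _ a => f a ≤ g a) := Ar.prim (Primrec.nat_le.comp hf hg)

/-- Substitution of arithmetical reals in an arithmetical relation, untyped version. -/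
theorem ArN.subst {R : (ℕ → Set ℕ) → ℕ → Prop} (hR : ArN R)
    {G : ℕ → (ℕ → Set ℕ) → ℕ → Set ℕ}
    (hG : ∀ i, ArN (fun ρ k => k.unpair.2 ∈ G i ρ k.unpair.1)) :
    ArN (fun ρ k => R (fun i => G i ρ k.unpair.1) k.unpair.2) := by
  induction hR with
  | prim hp => exact ArN.comp (Primrec.snd.comp Primrec.unpair) (ArN.prim hp)
  | orac i => exact hG i
  | not _ ih => exact ih.not
  | and _ _ ih ih' => exact ih.and ih'
  | @comp R f hf _ ih =>
    have hf' : Primrec (fun k : ℕ => Nat.pair k.unpair.1 (f k.unpair.2)) :=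
      Primrec₂.natPair.comp (Primrec.fst.comp Primrec.unpair)
        (hf.comp (Primrec.snd.comp Primrec.unpair))
    exact (ArN.comp hf' ih).of_eq fun ρ k => by simp
  | @ex R _ ih =>
    have hf' : Primrec (fun k : ℕ => Nat.pair k.unpair.1.unpair.1
        (Nat.pair k.unpair.1.unpair.2 k.unpair.2)) :=
      Primrec₂.natPair.comp (Primrec.fst.comp (Primrec.unpair.comp (Primrec.fst.comp Primrec.unpair)))
        (Primrec₂.natPair.comp
          (Primrec.snd.comp (Primrec.unpair.comp (Primrec.fst.comp Primrec.unpair)))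
          (Primrec.snd.comp Primrec.unpair))
    exact (ArN.ex (ArN.comp hf' ih)).of_eq fun ρ k => by simp

/-- Substitution of arithmetical reals in an arithmetical relation. -/
theorem Ar.subst {R : (ℕ → Set ℕ) → β → Prop} (hR : Ar R) {F : ℕ → (ℕ → Set ℕ) → α → Set ℕ}
    (hF : ∀ i, ArS (F i)) {f : α → β} (hf : Primrec f) :
    Ar (fun ρ a => R (fun i => F i ρ a) (f a)) := by
  have h1 := ArN.subst hR (G := fun i ρ n => {m | ∃ a : α, decode n = some a ∧ m ∈ F i ρ a})
    (fun i => ArN.of_eq (hF i) fun ρ k => by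
      constructor
      · rintro ⟨a, ha, h⟩
        refine ⟨(a, k.unpair.2), ?_, h⟩
        rw [Encodable.decode_prod_val]
        simp [ha]
      · rintro ⟨p, hp, h⟩
        rw [Encodable.decode_prod_val] at hp
        cases hm : (decode k.unpair.1 : Option α) with
        | none => simp [hm] at hp
        | some a =>
          simp only [hm, decode_nat, Option.map_some, Option.bind_some, Option.some.injEq] at hp
          subst hp
          exact ⟨a, rfl, h⟩)
  have hg : Primrec (fun n : ℕ => Nat.pair n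
      (((decode n : Option α).map fun a => encode (f a)).getD 0)) :=
    Primrec₂.natPair.comp Primrec.id (Primrec.option_getD.comp (Primrec.option_map Primrec.decode
      (Primrec.to₂ ((Primrec.encode.comp hf).comp Primrec.snd))) (Primrec.const 0))
  refine Ar.of_encode (ArN.comp hg h1) fun ρ a n hn => ?_
  simp [hn]

theorem Ar.mem {F : (ℕ → Set ℕ) → β → Set ℕ} (hF : ArS F) {f : α → β} (hf : Primrec f)
    {g : α → ℕ} (hg : Primrec g) : Ar (fun ρ a => g a ∈ F ρ (f a)) :=
  Ar.comp hF (hf.pair hg)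

theorem ArS.orac (i : ℕ) : ArS (fun ρ (_ : α) => ρ i) := Ar.orac i Primrec.snd

theorem ArS.setOf {R : (ℕ → Set ℕ) → α → ℕ → Prop} (h : Ar (fun ρ (p : α × ℕ) => R ρ p.1 p.2)) :
    ArS (fun ρ a => {n | R ρ a n}) := h

end

/-! ## Coding of reals -/

/-- The sequence `s` of reals as one real. -/
def join (s : ℕ → Set ℕ) : Set ℕ := {k | k.unpair.2 ∈ s k.unpair.1}

/-- The sequence of reals coded by `x`. -/
def col (x : Set ℕ) (i : ℕ) : Set ℕ := {n | Nat.pair i n ∈ x}

/-- The pair of the reals `x`, `y`. -/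
def jn (x y : Set ℕ) : Set ℕ := join (cons x (cons y fun _ => ∅))

/-- The pair of the number `n` and the real `x`. -/
def tag (n : ℕ) (x : Set ℕ) : Set ℕ := jn {n} x

@[simp] theorem col_join (s : ℕ → Set ℕ) (i : ℕ) : col (join s) i = s i := by
  ext n; simp [col, join]

@[simp] theorem col_jn_zero (x y : Set ℕ) : col (jn x y) 0 = x := by simp [jn]
@[simp] theorem col_jn_one (x y : Set ℕ) : col (jn x y) 1 = y := by simp [jn]
@[simp] theorem join_col (x : Set ℕ) : join (col x) = x := by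
  ext n; simp [col, join]

theorem join_inj {s t : ℕ → Set ℕ} (h : join s = join t) : s = t := by
  funext i; rw [← col_join s, h, col_join]

theorem jn_inj {x y x' y' : Set ℕ} (h : jn x y = jn x' y') : x = x' ∧ y = y' :=
  ⟨by rw [← col_jn_zero x y, h, col_jn_zero], by rw [← col_jn_one x y, h, col_jn_one]⟩

theorem tag_inj {n m : ℕ} {x y : Set ℕ} (h : tag n x = tag m y) : n = m ∧ x = y := by
  obtain ⟨h1, h2⟩ := jn_inj h
  exact ⟨by simpa using h1, h2⟩

/-! ## Third-order definable relations -/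

/-- Relations (in a number and a sequence of reals) which are definable from arithmetical relations
and membership in the sets of reals in `PS`, by quantifiers over the natural numbers and over the
reals in `RL`. -/
inductive T3 (RL : Set (Set ℕ)) (PS : Set (Set (Set ℕ))) : ((ℕ → Set ℕ) → ℕ → Prop) → Prop
  | ar {R : (ℕ → Set ℕ) → ℕ → Prop} : ArN R → T3 RL PS R
  | par {D : Set (Set ℕ)} (hD : D ∈ PS) (i : ℕ) : T3 RL PS (fun ρ _ => ρ i ∈ D)
  | not {R : (ℕ → Set ℕ) → ℕ → Prop} : T3 RL PS R → T3 RL PS (fun ρ n => ¬ R ρ n)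
  | and {R S : (ℕ → Set ℕ) → ℕ → Prop} : T3 RL PS R → T3 RL PS S →
      T3 RL PS (fun ρ n => R ρ n ∧ S ρ n)
  | comp {R : (ℕ → Set ℕ) → ℕ → Prop} {f : ℕ → ℕ} : Primrec f → T3 RL PS R →
      T3 RL PS (fun ρ n => R ρ (f n))
  | subst {R : (ℕ → Set ℕ) → ℕ → Prop} {G : ℕ → (ℕ → Set ℕ) → ℕ → Set ℕ} :
      (∀ i, ArN (fun ρ k => k.unpair.2 ∈ G i ρ k.unpair.1)) → T3 RL PS R →
      T3 RL PS (fun ρ n => R (fun i => G i ρ n) n)
  | ex {R : (ℕ → Set ℕ) → ℕ → Prop} : T3 RL PS R → T3 RL PS (fun ρ n => ∃ m, R ρ (Nat.pair n m))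
  | exR {R : (ℕ → Set ℕ) → ℕ → Prop} : T3 RL PS R →
      T3 RL PS (fun ρ n => ∃ x ∈ RL, R (cons x ρ) n)

/-- Third-order definable relations in an element of a `Primcodable` type. -/
def TT {α : Type u} [Primcodable α] (RL : Set (Set ℕ)) (PS : Set (Set (Set ℕ)))
    (R : (ℕ → Set ℕ) → α → Prop) : Prop :=
  T3 RL PS fun ρ n => ∃ a : α, decode n = some a ∧ R ρ a

section

variable {RL : Set (Set ℕ)} {PS : Set (Set (Set ℕ))}
variable {α : Type u₁} {β : Type u₂} {γ : Type u₃} [Primcodable α] [Primcodable β] [Primcodable γ]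

theorem T3.of_eq {R S : (ℕ → Set ℕ) → ℕ → Prop} (h : T3 RL PS R) (e : ∀ ρ n, S ρ n ↔ R ρ n) :
    T3 RL PS S := by
  have : S = R := by
    funext ρ n
    exact propext (e ρ n)
  rw [this]; exact h

theorem TT.of_eq {R S : (ℕ → Set ℕ) → α → Prop} (h : TT RL PS R) (e : ∀ ρ a, S ρ a ↔ R ρ a) :
    TT RL PS S := by
  have : S = R := by
    funext ρ n
    exact propext (e ρ n)
  rw [this]; exact h

theorem tT_iff_t3 {R : (ℕ → Set ℕ) → ℕ → Prop} : TT RL PS R ↔ T3 RL PS R := by
  unfold TT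
  constructor
  · intro h
    exact h.of_eq fun ρ n => by simp
  · intro h
    exact h.of_eq fun ρ n => by simp

theorem TT.of_encode {R : (ℕ → Set ℕ) → α → Prop} {S : (ℕ → Set ℕ) → ℕ → Prop}
    (hS : T3 RL PS S) (e : ∀ ρ (a : α) (n : ℕ), decode n = some a → (R ρ a ↔ S ρ n)) :
    TT RL PS R := by
  refine ((T3.ar (ArN.prim (primrecPred_dom (α := α)))).and hS).of_eq fun ρ n => ?_
  constructor
  · rintro ⟨a, ha, h⟩
    exact ⟨⟨a, ha⟩, (e ρ a n ha).1 h⟩
  · rintro ⟨⟨a, ha⟩, h⟩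
    exact ⟨a, ha, (e ρ a n ha).2 h⟩

theorem TT.ar {R : (ℕ → Set ℕ) → α → Prop} (h : Ar R) : TT RL PS R := T3.ar h

theorem TT.not {R : (ℕ → Set ℕ) → α → Prop} (h : TT RL PS R) : TT RL PS (fun ρ a => ¬ R ρ a) := by
  refine TT.of_encode (T3.not h) fun ρ a n hn => ?_
  rw [not_iff_not]
  constructor
  · intro h; exact ⟨a, hn, h⟩
  · rintro ⟨b, hb, h⟩
    rw [hn] at hb
    exact (Option.some.inj hb) ▸ h

theorem TT.and {R S : (ℕ → Set ℕ) → α → Prop} (h : TT RL PS R) (h' : TT RL PS S) :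
    TT RL PS (fun ρ a => R ρ a ∧ S ρ a) := by
  refine TT.of_encode (T3.and h h') fun ρ a n hn => ?_
  constructor
  · rintro ⟨h, h'⟩; exact ⟨⟨a, hn, h⟩, ⟨a, hn, h'⟩⟩
  · rintro ⟨⟨b, hb, h⟩, ⟨c, hc, h'⟩⟩
    rw [hn] at hb hc
    exact ⟨(Option.some.inj hb) ▸ h, (Option.some.inj hc) ▸ h'⟩

theorem TT.imp {R S : (ℕ → Set ℕ) → α → Prop} (h : TT RL PS R) (h' : TT RL PS S) :
    TT RL PS (fun ρ a => R ρ a → S ρ a) :=
  (h.and h'.not).not.of_eq fun ρ a => by tauto

theorem TT.or {R S : (ℕ → Set ℕ) → α → Prop} (h : TT RL PS R) (h' : TT RL PS S) :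
    TT RL PS (fun ρ a => R ρ a ∨ S ρ a) :=
  (h.not.and h'.not).not.of_eq fun ρ a => by tauto

theorem TT.iff {R S : (ℕ → Set ℕ) → α → Prop} (h : TT RL PS R) (h' : TT RL PS S) :
    TT RL PS (fun ρ a => R ρ a ↔ S ρ a) :=
  ((h.imp h').and (h'.imp h)).of_eq fun ρ a => by tauto

theorem TT.comp {R : (ℕ → Set ℕ) → β → Prop} (h : TT RL PS R) {f : α → β} (hf : Primrec f) :
    TT RL PS (fun ρ a => R ρ (f a)) := by
  have hg : Primrec (fun n : ℕ => (((decode n : Option α).map fun a => encode (f a)).getD 0)) :=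
    Primrec.option_getD.comp (Primrec.option_map Primrec.decode
      (Primrec.to₂ ((Primrec.encode.comp hf).comp Primrec.snd))) (Primrec.const 0)
  refine TT.of_encode (T3.comp hg h) fun ρ a n hn => ?_
  simp [hn]

theorem TT.ex {R : (ℕ → Set ℕ) → α → β → Prop}
    (h : TT RL PS (fun ρ (p : α × β) => R ρ p.1 p.2)) : TT RL PS (fun ρ a => ∃ b, R ρ a b) := by
  refine TT.of_encode (T3.ex h) fun ρ a n hn => ?_
  constructor
  · rintro ⟨b, hb⟩
    refine ⟨encode b, (a, b), ?_, hb⟩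
    rw [Encodable.decode_prod_val]
    simp [hn]
  · rintro ⟨m, p, hp, h⟩
    rw [Encodable.decode_prod_val] at hp
    simp only [Nat.unpair_pair, hn] at hp
    cases hm : (decode m : Option β) with
    | none => simp [hm] at hp
    | some b =>
      simp only [hm, Option.map_some, Option.bind_some, Option.some.injEq] at hp
      subst hp
      exact ⟨b, h⟩

theorem TT.all {R : (ℕ → Set ℕ) → α → β → Prop}
    (h : TT RL PS (fun ρ (p : α × β) => R ρ p.1 p.2)) : TT RL PS (fun ρ a => ∀ b, R ρ a b) :=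
  (TT.ex (R := fun ρ a b => ¬ R ρ a b) h.not).not.of_eq fun ρ a => by push Not; rfl

theorem TT.exR {R : Set ℕ → (ℕ → Set ℕ) → α → Prop}
    (h : TT RL PS (fun ρ a => R (ρ 0) (fun i => ρ (i + 1)) a)) :
    TT RL PS (fun ρ a => ∃ x ∈ RL, R x ρ a) := by
  refine TT.of_encode (T3.exR h) fun ρ a n hn => ?_
  constructor
  · rintro ⟨x, hx, h⟩
    exact ⟨x, hx, a, hn, h⟩
  · rintro ⟨x, hx, b, hb, h⟩
    rw [hn] at hb
    exact ⟨x, hx, (Option.some.inj hb) ▸ h⟩

theorem TT.allR {R : Set ℕ → (ℕ → Set ℕ) → α → Prop}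
    (h : TT RL PS (fun ρ a => R (ρ 0) (fun i => ρ (i + 1)) a)) :
    TT RL PS (fun ρ a => ∀ x ∈ RL, R x ρ a) :=
  (TT.exR (R := fun x ρ a => ¬ R x ρ a) h.not).not.of_eq fun ρ a => by push Not; rfl

/-- Substitution of arithmetical reals. -/
theorem TT.subst {R : (ℕ → Set ℕ) → α → Prop} (hR : TT RL PS R)
    {F : ℕ → (ℕ → Set ℕ) → α → Set ℕ} (hF : ∀ i, ArS (F i)) :
    TT RL PS (fun ρ a => R (fun i => F i ρ a) a) := by
  have h1 := T3.subst (RL := RL) (PS := PS)
    (G := fun i ρ n => {m | ∃ a : α, decode n = some a ∧ m ∈ F i ρ a})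
    (fun i => ArN.of_eq (hF i) fun ρ k => by
      constructor
      · rintro ⟨a, ha, h⟩
        refine ⟨(a, k.unpair.2), ?_, h⟩
        rw [Encodable.decode_prod_val]
        simp [ha]
      · rintro ⟨p, hp, h⟩
        rw [Encodable.decode_prod_val] at hp
        cases hm : (decode k.unpair.1 : Option α) with
        | none => simp [hm] at hp
        | some a =>
          simp only [hm, decode_nat, Option.map_some, Option.bind_some, Option.some.injEq] at hp
          subst hp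
          exact ⟨a, rfl, h⟩) hR
  refine TT.of_encode h1 fun ρ a n hn => ?_
  simp [hn]

theorem TT.par {D : Set (Set ℕ)} (hD : D ∈ PS) {F : (ℕ → Set ℕ) → α → Set ℕ} (hF : ArS F) :
    TT RL PS (fun ρ a => F ρ a ∈ D) := by
  have h1 : TT RL PS (fun ρ (_ : α) => ρ 0 ∈ D) :=
    TT.of_encode (T3.par hD 0) fun ρ a n hn => Iff.rfl
  exact h1.subst (F := fun _ => F) (fun _ => hF)

end

end Pool.Agent.Helper44.CL
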