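import Pool.Agent.Helper44.CL.Bridge

/-!
# Project CL: the pieces of the interface for the constructibility relation
-/

set_option autoImplicit false

namespace Pool.Agent.Helper44.CL

open Pool.Agent.Helper17.CL hiding cons cons_zero cons_succ join
open Pool.Agent.Helper17.CL.Cod (code)

/-- The sets of constructible reals which are elements of `L`. -/
def L2 : Set (Set (Set ℕ)) := {D | (∀ x ∈ D, ConFrom x ∅) ∧ rset D ∈ Lc ∅}

theorem arith_conFrom {R : (ℕ → Set ℕ) → ℕ → Prop} (hR : ArN R) (ρ : ℕ → Set ℕ) (z : Set ℕ)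
    (hρ : ∀ i, ConFrom (ρ i) z) : ConFrom {n | R ρ n} z :=
  hR.rl_mem (lc_inner z) hρ

theorem compr_conFrom {R : (ℕ → Set ℕ) → ℕ → Prop} (hR : T3 {x | ConFrom x ∅} L2 R)
    (ρ : ℕ → Set ℕ) (n : ℕ) (hρ : ∀ i, ConFrom (ρ i) ∅) :
    {x | ConFrom x ∅ ∧ R (cons x ρ) n} ∈ L2 := by
  refine ⟨fun x hx => hx.1, ?_⟩
  exact T3.rset_mem (lc_inner ∅) (PS := L2) (fun D hD => hD.2) hR hρ

/-- Countability of `L2`. -/
theorem L2_countable_of (hc : ∀ z, {x | ConFrom x z}.Countable) : L2.Countable := by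
  obtain ⟨e, he⟩ := (hc ∅).exists_eq_range ⟨∅, ConFrom.refl ∅⟩
  have heL : ∀ n, ConFrom (e n) ∅ := fun n => by
    have : e n ∈ {x | ConFrom x ∅} := he ▸ ⟨n, rfl⟩
    exact this
  have hM := lc_inner (join e)
  refine Set.countable_of_injective_of_countable_image (f := fun D => {n | e n ∈ D}) ?_
    ((hc (join e)).mono ?_)
  · intro D hD D' hD' h
    ext x
    constructor
    · intro hx
      have h1 : x ∈ {x | ConFrom x ∅} := hD.1 x hx
      rw [he] at h1
      obtain ⟨n, rfl⟩ := h1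
      have h2 : n ∈ {n | e n ∈ D} := hx
      have h3 : ({n | e n ∈ D} : Set ℕ) = {n | e n ∈ D'} := h
      rw [h3] at h2
      exact h2
    · intro hx
      have h1 : x ∈ {x | ConFrom x ∅} := hD'.1 x hx
      rw [he] at h1
      obtain ⟨n, rfl⟩ := h1
      have h2 : n ∈ {n | e n ∈ D'} := hx
      have h3 : ({n | e n ∈ D} : Set ℕ) = {n | e n ∈ D'} := h
      rw [← h3] at h2
      exact h2
  · rintro _ ⟨D, hD, rfl⟩
    show rl {n | e n ∈ D} ∈ Lc (join e)
    apply rl_mem_of_am hM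
    have h1 : AmF (Lc (join e)) (fun n : ℕ => col (join e) n) :=
      (amF_col hM).comp hM (f := fun n : ℕ => (join e, n))
        ((AmF.const hM _ rl_mem_lc).prod hM (AmF.id hM))
    refine (Am.mem hM ((AmF.code hM).comp hM h1)
      (AmF.const hM (rset D) (lc_empty_subset hM hD.2))).congr hM fun n _ => ?_
    rw [col_join]
    exact rl_mem_rset.symm

/-- Dependent choice, from definable choice functions. -/
theorem dc_of_choice
    (hch : ∀ {R : Set ℕ × ℕ → Set ℕ → Prop},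
      Am (Lc ∅) (fun q : (Set ℕ × ℕ) × Set ℕ => R q.1 q.2) →
      ∃ f : Set ℕ × ℕ → Set ℕ, AmF (Lc ∅) f ∧
        ∀ x, code x ∈ Lc ∅ → (∃ y, rl y ∈ Lc ∅ ∧ R x y) → R x (f x))
    {R : (ℕ → Set ℕ) → ℕ → Prop} (hR : T3 {x | ConFrom x ∅} L2 R)
    (ρ : ℕ → Set ℕ) (hρ : ∀ i, ConFrom (ρ i) ∅)
    (htot : ∀ n, ∀ x, ConFrom x ∅ → ∃ y, ConFrom y ∅ ∧ R (cons x (cons y ρ)) n)
    (x₀ : Set ℕ) (hx₀ : ConFrom x₀ ∅) :
    ∃ s : ℕ → Set ℕ, ConFrom (join s) ∅ ∧ s 0 = x₀ ∧
      ∀ n, R (cons (s n) (cons (s (n + 1)) ρ)) n := by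
  have h := lc_inner ∅
  obtain ⟨N, hN⟩ := hR.supp
  obtain ⟨J, hJe⟩ : ∃ J : Set ℕ, J = join fun i => if i < N then ρ i else ∅ := ⟨_, rfl⟩
  have hJ : rl J ∈ Lc ∅ := by rw [hJe]; exact rl_join_trunc h N (ρ := ρ) fun i _ => hρ i
  have hcons : ∀ x y : Set ℕ, ∀ n, (R (col (join (cons x (col (join (cons y (col J))))))) n ↔
      R (cons x (cons y ρ)) n) := by
    intro x y n
    have e1 : col (join (cons x (col (join (cons y (col J)))))) =
        cons x (cons y (fun i => if i < N then ρ i else ∅)) := by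
      funext i
      rcases i with _ | _ | i
      · simp
      · simp
      · simp [hJe]
    rw [e1]
    refine hN _ _ (fun i hi => ?_) n
    rcases i with _ | _ | i
    · rfl
    · rfl
    · have : i < N := by omega
      simp [this]
  have h1 : Am (Lc ∅) (fun q : (Set ℕ × ℕ) × Set ℕ =>
      R (col (join (cons q.1.1 (col (join (cons q.2 (col J))))))) q.1.2) := by
    refine (T3.am h (PS := L2) (fun D hD => hD.2) hR).comp h
      (f := fun q : (Set ℕ × ℕ) × Set ℕ => (join (cons q.1.1 (col (join (cons q.2 (col J))))), q.1.2))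
      (AmF.prod h ?_ ((AmF.snd h).comp h (AmF.fst h)))
    refine (amF_consJ h).comp h (f := fun q : (Set ℕ × ℕ) × Set ℕ =>
      (q.1.1, join (cons q.2 (col J)))) (AmF.prod h ((AmF.fst h).comp h (AmF.fst h)) ?_)
    exact (amF_consJ h).comp h (f := fun q : (Set ℕ × ℕ) × Set ℕ => (q.2, J))
      ((AmF.snd h).prod h (AmF.const h J hJ))
  obtain ⟨f, hf, hf'⟩ := hch (R := fun p y =>
    R (col (join (cons p.1 (col (join (cons y (col J))))))) p.2) h1
  let s : ℕ → Set ℕ := fun n => Nat.rec x₀ (fun n x => f (x, n)) n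
  have hs : AmF (Lc ∅) (fun q : ℕ × ℕ => s q.2) := by
    refine AmF.rec_nat h (G := fun _ : ℕ => x₀) (H := fun _ n x => f (x, n))
      (F := fun _ n => s n) (AmF.const h x₀ hx₀) ?_ (fun _ => rfl) (fun _ _ => rfl)
    exact hf.comp h (f := fun q : ℕ × ℕ × Set ℕ => (q.2.2, q.2.1))
      (((AmF.snd h).comp h (AmF.snd h)).prod h ((AmF.fst h).comp h (AmF.snd h)))
  have hs' : AmF (Lc ∅) s := hs.comp h (f := fun n : ℕ => (n, n)) ((AmF.id h).prod h (AmF.id h))
  have hsm : ∀ n, ConFrom (s n) ∅ := fun n => hs'.mem n (AbsCod.mem h n)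
  refine ⟨s, ?_, rfl, fun n => ?_⟩
  · show rl (join s) ∈ Lc ∅
    apply rl_mem_of_am h
    refine (Am.mem_set h (f := fun k : ℕ => k.unpair.2) (g := fun k : ℕ => s k.unpair.1)
      ((AmF.snd h).comp h (AmF.natUnpair h (AmF.id h)))
      (hs'.comp h ((AmF.fst h).comp h (AmF.natUnpair h (AmF.id h))))).congr h fun k _ => Iff.rfl
  · have h2 := hf' (s n, n) ((code_mem_prod h).2 ⟨hsm n, AbsCod.mem h n⟩) (by
      obtain ⟨y, hy, hy'⟩ := htot n (s n) (hsm n)
      exact ⟨y, hy, (hcons (s n) y n).2 hy'⟩)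
    exact (hcons (s n) (f (s n, n)) n).1 h2

end Pool.Agent.Helper44.CL
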