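import Pool.Agent.Helper44.CL.Arith

/-!
# Project CL: the interface between the constructibility layer and the combinatorics

`cle x y` will be `x ∈ L[y]` for reals (sets of natural numbers), `L2` the class of the sets of
constructible reals which are elements of `L`.
-/

set_option autoImplicit false

namespace Pool.Agent.Helper44.CL

/-- `D` is (coded by) an element of `L2`, for a sequence `D` of sets of reals. -/
def SeqIn (L2 : Set (Set (Set ℕ))) (D : ℕ → Set (Set ℕ)) : Prop :=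
  {x | ∃ n, ∃ y ∈ D n, x = tag n y} ∈ L2

/-- `le` is coded by an element of `L2`, for a relation `le` on the set `P` of reals. -/
def RelIn (L2 : Set (Set (Set ℕ))) (P : Set (Set ℕ)) (le : Set ℕ → Set ℕ → Prop) : Prop :=
  {x | ∃ p ∈ P, ∃ q ∈ P, le p q ∧ x = jn p q} ∈ L2

/-- `D` is a dense subset of `P`. -/
def Dense (P : Set (Set ℕ)) (le : Set ℕ → Set ℕ → Prop) (D : Set (Set ℕ)) : Prop :=
  D ⊆ P ∧ ∀ p ∈ P, ∃ q ∈ D, le q p

/-- `G` is a filter on `(P, le)` which meets all dense subsets of `P` which are in `L2`. -/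
structure Generic (L2 : Set (Set (Set ℕ))) (P : Set (Set ℕ)) (le : Set ℕ → Set ℕ → Prop)
    (G : Set (Set ℕ)) : Prop where
  sub : G ⊆ P
  up : ∀ p ∈ G, ∀ q ∈ P, le p q → q ∈ G
  dir : ∀ p ∈ G, ∀ q ∈ G, ∃ r ∈ G, le r p ∧ le r q
  meets : ∀ D ∈ L2, Dense P le D → ∃ p ∈ G, p ∈ D

/-- The interface. -/
structure Iface (cle : Set ℕ → Set ℕ → Prop) (L2 : Set (Set (Set ℕ))) : Prop where
  /-- (I1) `cle` is a preorder -/
  refl : ∀ x, cle x x
  trans : ∀ x y z, cle x y → cle y z → cle x z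
  /-- (I1) the reals in `L[z]` are closed under arithmetical operations -/
  arith : ∀ {R : (ℕ → Set ℕ) → ℕ → Prop}, ArN R → ∀ (ρ : ℕ → Set ℕ) (z : Set ℕ),
    (∀ i, cle (ρ i) z) → cle {n | R ρ n} z
  /-- (I3) countability -/
  countable : ∀ z, {x | cle x z}.Countable
  L2_countable : L2.Countable
  L2_sub : ∀ D ∈ L2, ∀ x ∈ D, cle x ∅
  /-- (I4) comprehension in `L`, with real parameters `ρ` -/
  compr : ∀ {R : (ℕ → Set ℕ) → ℕ → Prop}, T3 {x | cle x ∅} L2 R → ∀ (ρ : ℕ → Set ℕ) (n : ℕ),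
    (∀ i, cle (ρ i) ∅) → {x | cle x ∅ ∧ R (cons x ρ) n} ∈ L2
  /-- (I4) dependent choice in `L` -/
  dc : ∀ {R : (ℕ → Set ℕ) → ℕ → Prop}, T3 {x | cle x ∅} L2 R → ∀ (ρ : ℕ → Set ℕ),
    (∀ i, cle (ρ i) ∅) → (∀ n, ∀ x, cle x ∅ → ∃ y, cle y ∅ ∧ R (cons x (cons y ρ)) n) →
    ∀ x₀, cle x₀ ∅ → ∃ s : ℕ → Set ℕ, cle (join s) ∅ ∧ s 0 = x₀ ∧
      ∀ n, R (cons (s n) (cons (s (n + 1)) ρ)) n
  /-- (I5) `Σ¹₁` absoluteness -/
  sigma : ∀ {R : (ℕ → Set ℕ) → ℕ → Prop}, ArN R → ∀ (ρ : ℕ → Set ℕ) (n : ℕ),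
    (∀ i, cle (ρ i) ∅) → (∃ x, R (cons x ρ) n) → ∃ x, cle x ∅ ∧ R (cons x ρ) n
  /-- (I2) names for the reals of `L[g]`, for a real `g` of `L[G]` -/
  names : ∀ (P : Set (Set ℕ)) (le : Set ℕ → Set ℕ → Prop), P ∈ L2 → RelIn L2 P le →
    (∀ p ∈ P, le p p) → (∀ p ∈ P, ∀ q ∈ P, ∀ r ∈ P, le p q → le q r → le p r) →
    ∀ G, Generic L2 P le G → ∀ E : ℕ → Set (Set ℕ), SeqIn L2 E →
    ∀ z, cle z {n | ∃ p ∈ G, p ∈ E n} →
    ∃ D : Bool → ℕ → Set (Set ℕ), (∀ e, SeqIn L2 (D e)) ∧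
      (∀ n, Dense P le (D true n ∪ D false n)) ∧
      (∀ n, n ∈ z ↔ ∃ p ∈ G, p ∈ D true n) ∧ (∀ n, n ∉ z ↔ ∃ p ∈ G, p ∈ D false n)

namespace Iface

variable {cle : Set ℕ → Set ℕ → Prop} {L2 : Set (Set (Set ℕ))} (I : Iface cle L2)
include I

/-- Typed version of `arith`. -/
theorem arith' {α : Type*} [Primcodable α] {R : (ℕ → Set ℕ) → α → Prop} (hR : Ar R)
    (ρ : ℕ → Set ℕ) (z : Set ℕ) (hρ : ∀ i, cle (ρ i) z) :
    cle {n | ∃ a : α, Encodable.decode n = some a ∧ R ρ a} z :=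
  I.arith hR ρ z hρ

theorem arith_enc {α : Type*} [Primcodable α] {R : (ℕ → Set ℕ) → α → Prop} (hR : Ar R)
    (ρ : ℕ → Set ℕ) (z : Set ℕ) (hρ : ∀ i, cle (ρ i) z) :
    cle (Encodable.encode '' {a | R ρ a}) z := by
  have h : Ar (fun ρ (n : ℕ) => ∃ a : α, R ρ a ∧ Encodable.encode a = n) := by
    refine Ar.ex ?_
    exact (hR.comp Primrec.snd).and
      (Ar.eq (Primrec.encode.comp Primrec.snd) Primrec.fst)
  have h1 := I.arith (ar_iff_arN.1 h) ρ z hρ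
  exact h1

theorem empty_le (z : Set ℕ) : cle ∅ z := by
  have h := I.arith (R := fun _ _ => False) (ar_iff_arN.1 (Ar.const False)) (fun _ => z) z
    (fun _ => I.refl z)
  have e : {n : ℕ | False} = (∅ : Set ℕ) := by ext; simp
  rw [e] at h
  exact h

theorem of_L {x : Set ℕ} (h : cle x ∅) (z : Set ℕ) : cle x z := I.trans _ _ _ h (I.empty_le z)

theorem cons_le {x z : Set ℕ} {ρ : ℕ → Set ℕ} (hx : cle x z) (hρ : ∀ i, cle (ρ i) z) :
    ∀ i, cle (cons x ρ i) z := by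
  intro i
  cases i with
  | zero => exact hx
  | succ i => exact hρ i

theorem jn_le {x y z : Set ℕ} (hx : cle x z) (hy : cle y z) : cle (jn x y) z := by
  have h : Ar (fun ρ (k : ℕ) => (k.unpair.1 = 0 ∧ k.unpair.2 ∈ ρ 0) ∨
      (k.unpair.1 = 1 ∧ k.unpair.2 ∈ ρ 1)) :=
    ((Ar.eq (Primrec.fst.comp Primrec.unpair) (Primrec.const 0)).and
      (Ar.orac 0 (Primrec.snd.comp Primrec.unpair))).or
    ((Ar.eq (Primrec.fst.comp Primrec.unpair) (Primrec.const 1)).and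
      (Ar.orac 1 (Primrec.snd.comp Primrec.unpair)))
  have h1 := I.arith (ar_iff_arN.1 h) (cons x (cons y fun _ => ∅)) z
    (I.cons_le hx (I.cons_le hy fun _ => I.empty_le z))
  have e : jn x y = {k | (k.unpair.1 = 0 ∧ k.unpair.2 ∈ cons x (cons y fun _ => (∅ : Set ℕ)) 0) ∨
      (k.unpair.1 = 1 ∧ k.unpair.2 ∈ cons x (cons y fun _ => (∅ : Set ℕ)) 1)} := by
    ext k
    simp only [jn, join, Set.mem_ofPred_eq]
    rcases h : k.unpair.1 with _ | _ | m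
    · simp
    · simp
    · simp [cons]
  rw [e]
  exact h1

theorem col_le {x z : Set ℕ} (hx : cle x z) (i : ℕ) : cle (col x i) z := by
  have h : Ar (fun ρ (k : ℕ) => Nat.pair i k ∈ ρ 0) :=
    Ar.orac 0 (Primrec₂.natPair.comp (Primrec.const i) Primrec.id)
  exact I.arith (ar_iff_arN.1 h) (fun _ => x) z (fun _ => hx)

theorem le_jn_left (x y : Set ℕ) : cle x (jn x y) := by
  have h := I.col_le (I.refl (jn x y)) 0
  rwa [col_jn_zero] at h

theorem le_jn_right (x y : Set ℕ) : cle y (jn x y) := by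
  have h := I.col_le (I.refl (jn x y)) 1
  rwa [col_jn_one] at h

/-- Sections of sequences in `L2` are in `L2`. -/
theorem seqIn_apply {D : ℕ → Set (Set ℕ)} (hD : SeqIn L2 D) (n : ℕ) : D n ∈ L2 := by
  have h : TT {x | cle x ∅} L2 (fun ρ (n : ℕ) => tag n (ρ 0) ∈
      {x | ∃ n, ∃ y ∈ D n, x = tag n y}) := by
    refine TT.par hD (F := fun ρ n => tag n (ρ 0)) ?_
    refine Ar.of_eq (R := fun ρ (p : ℕ × ℕ) => (p.2.unpair.1 = 0 ∧ p.2.unpair.2 = p.1) ∨
      (p.2.unpair.1 = 1 ∧ p.2.unpair.2 ∈ ρ 0)) ?_ ?_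
    · have h1 : Primrec (fun p : ℕ × ℕ => p.2.unpair.1) :=
        Primrec.fst.comp (Primrec.unpair.comp Primrec.snd)
      have h2 : Primrec (fun p : ℕ × ℕ => p.2.unpair.2) :=
        Primrec.snd.comp (Primrec.unpair.comp Primrec.snd)
      exact ((Ar.eq h1 (Primrec.const 0)).and (Ar.eq h2 Primrec.fst)).or
        ((Ar.eq h1 (Primrec.const 1)).and (Ar.orac 0 h2))
    · intro ρ p
      simp only [tag, jn, join, Set.mem_ofPred_eq]
      rcases h : p.2.unpair.1 with _ | _ | m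
      · simp
      · simp
      · simp [cons]
  have h1 := I.compr (tT_iff_t3.1 h) (fun _ => ∅) n (fun _ => I.refl _)
  have e : D n = {x | cle x ∅ ∧ tag n (cons x (fun _ => ∅) 0) ∈
      {x | ∃ n, ∃ y ∈ D n, x = tag n y}} := by
    ext x
    simp only [Set.mem_ofPred_eq, cons_zero]
    constructor
    · intro hx
      have h2 := I.L2_sub _ hD _ ⟨n, x, hx, rfl⟩
      have h3 := I.col_le h2 1
      rw [tag, col_jn_one] at h3
      exact ⟨h3, n, x, hx, rfl⟩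
    · rintro ⟨_, m, y, hy, h⟩
      obtain ⟨rfl, rfl⟩ := tag_inj h
      exact hy
  rw [e]
  exact h1

end Iface

/-- The lattice of Shore's question: bottom `0`, top `1`, a descending sequence `a_0 > a_1 > ...`
and an element `b` incomparable with all `a_n`. -/
abbrev TLat : Type := WithBot (WithTop (ℕᵒᵈ ⊕ Unit))

/-- The lattice embeds as an initial segment of the degrees given by the preorder `cle`. -/
def Embeds (cle : Set ℕ → Set ℕ → Prop) : Prop :=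
  ∃ f : TLat → Set ℕ, (∀ s t, cle (f s) (f t) ↔ s ≤ t) ∧
    ∀ t x, cle x (f t) → ∃ s, cle x (f s) ∧ cle (f s) x

end Pool.Agent.Helper44.CL
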