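import Pool.Agent.Helper17.CL.Min
import Pool.Agent.Helper8.CL.Nat
import Pool.Agent.Helper44.CL.Interface

/-!
# Project CL: arithmetical and third-order definable relations are amenable to inner models
-/

set_option autoImplicit false

namespace Pool.Agent.Helper44.CL

open Pool.Agent.Helper17.CL hiding cons cons_zero cons_succ join
open Pool.Agent.Helper17.CL.Cod (code)

/-! ## Finite support -/

theorem ArN.supp {R : (ℕ → Set ℕ) → ℕ → Prop} (hR : ArN R) :
    ∃ N, ∀ ρ ρ' : ℕ → Set ℕ, (∀ i < N, ρ i = ρ' i) → ∀ n, R ρ n ↔ R ρ' n := by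
  induction hR with
  | prim _ => exact ⟨0, fun _ _ _ _ => Iff.rfl⟩
  | orac i => exact ⟨i + 1, fun ρ ρ' h n => by beta_reduce; rw [h i (Nat.lt_succ_self i)]⟩
  | not _ ih =>
    obtain ⟨N, hN⟩ := ih
    exact ⟨N, fun ρ ρ' h n => not_congr (hN ρ ρ' h n)⟩
  | and _ _ ih ih' =>
    obtain ⟨N, hN⟩ := ih
    obtain ⟨N', hN'⟩ := ih'
    exact ⟨max N N', fun ρ ρ' h n => and_congr
      (hN ρ ρ' (fun i hi => h i (hi.trans_le (le_max_left _ _))) n)
      (hN' ρ ρ' (fun i hi => h i (hi.trans_le (le_max_right _ _))) n)⟩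
  | comp _ _ ih =>
    obtain ⟨N, hN⟩ := ih
    exact ⟨N, fun ρ ρ' h n => hN ρ ρ' h _⟩
  | ex _ ih =>
    obtain ⟨N, hN⟩ := ih
    exact ⟨N, fun ρ ρ' h n => exists_congr fun m => hN ρ ρ' h _⟩

theorem T3.supp {RL : Set (Set ℕ)} {PS : Set (Set (Set ℕ))} {R : (ℕ → Set ℕ) → ℕ → Prop}
    (hR : T3 RL PS R) :
    ∃ N, ∀ ρ ρ' : ℕ → Set ℕ, (∀ i < N, ρ i = ρ' i) → ∀ n, R ρ n ↔ R ρ' n := by
  induction hR with
  | ar h => exact h.supp
  | par _ i => exact ⟨i + 1, fun ρ ρ' h n => by beta_reduce; rw [h i (Nat.lt_succ_self i)]⟩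
  | not _ ih =>
    obtain ⟨N, hN⟩ := ih
    exact ⟨N, fun ρ ρ' h n => not_congr (hN ρ ρ' h n)⟩
  | and _ _ ih ih' =>
    obtain ⟨N, hN⟩ := ih
    obtain ⟨N', hN'⟩ := ih'
    exact ⟨max N N', fun ρ ρ' h n => and_congr
      (hN ρ ρ' (fun i hi => h i (hi.trans_le (le_max_left _ _))) n)
      (hN' ρ ρ' (fun i hi => h i (hi.trans_le (le_max_right _ _))) n)⟩
  | comp _ _ ih =>
    obtain ⟨N, hN⟩ := ih
    exact ⟨N, fun ρ ρ' h n => hN ρ ρ' h _⟩
  | ex _ ih =>
    obtain ⟨N, hN⟩ := ih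
    exact ⟨N, fun ρ ρ' h n => exists_congr fun m => hN ρ ρ' h _⟩
  | exR _ ih =>
    obtain ⟨N, hN⟩ := ih
    refine ⟨N, fun ρ ρ' h n => exists_congr fun x => and_congr_right fun _ => hN _ _ ?_ n⟩
    intro i hi
    cases i with
    | zero => rfl
    | succ i => exact h i (by omega)
  | @subst R G hG _ ih =>
    obtain ⟨N, hN⟩ := ih
    choose K hK using fun i => (hG i).supp
    refine ⟨(Finset.range N).sup K, fun ρ ρ' h n => hN _ _ ?_ n⟩
    intro i hi
    ext m
    have h1 := hK i ρ ρ' (fun j hj => h j (hj.trans_le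
      (Finset.le_sup (f := K) (Finset.mem_range.2 hi)))) (Nat.pair n m)
    simpa using h1

/-! ## Amenability -/

section

variable {M : Set ZFSet.{0}} (h : IsInner M)

include h

theorem amF_col : AmF M (fun q : Set ℕ × ℕ => col q.1 q.2) := by
  unfold col
  refine AmF.setOf h (R := fun (q : Set ℕ × ℕ) n => Nat.pair q.2 n ∈ q.1) ?_
  exact Am.mem_set h (AmF.natPair h ((AmF.snd h).comp h (AmF.fst h)) (AmF.snd h))
    ((AmF.fst h).comp h (AmF.fst h))

/-- Arithmetical relations are amenable. -/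
theorem ArN.am {R : (ℕ → Set ℕ) → ℕ → Prop} (hR : ArN R) :
    Am M (fun q : Set ℕ × ℕ => R (col q.1) q.2) := by
  induction hR with
  | prim hp => exact Am.primrecPred h hp (AmF.snd h)
  | orac i =>
    exact (Am.mem_set h (f := fun q : Set ℕ × ℕ => Nat.pair i q.2) (g := fun q => q.1)
      (AmF.natPair h (AmF.const h i (AbsCod.mem h i)) (AmF.snd h)) (AmF.fst h)).congr h
      fun _ _ => Iff.rfl
  | not _ ih => exact ih.not h
  | and _ _ ih ih' => exact ih.and h ih'
  | @comp R f hf _ ih =>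
    exact ih.comp h (f := fun q : Set ℕ × ℕ => (q.1, f q.2))
      ((AmF.fst h).prod h (AmF.primrec h hf (AmF.snd h)))
  | @ex R _ ih =>
    refine Am.exA h (R := fun (q : Set ℕ × ℕ) (m : ℕ) => R (col q.1) (Nat.pair q.2 m)) ?_
    exact ih.comp h (f := fun q : (Set ℕ × ℕ) × ℕ => (q.1.1, Nat.pair q.1.2 q.2))
      (((AmF.fst h).comp h (AmF.fst h)).prod h
        (AmF.natPair h ((AmF.snd h).comp h (AmF.fst h)) (AmF.snd h)))

/-- A set of natural numbers with an amenable membership is in `M`. -/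
theorem rl_mem_of_am {x : Set ℕ} (hx : Am M (fun n : ℕ => n ∈ x)) : rl x ∈ M :=
  (AmF.setOf h (R := fun (_ : ZFSet.{0}) (n : ℕ) => n ∈ x) (hx.comp h (AmF.snd h))).mem ∅
    h.empty_mem

/-- Finite joins of reals in `M` are in `M`. -/
theorem rl_join_trunc {ρ : ℕ → Set ℕ} (N : ℕ) (hρ : ∀ i < N, rl (ρ i) ∈ M) :
    rl (join fun i => if i < N then ρ i else ∅) ∈ M := by
  apply rl_mem_of_am h
  have key : ∀ K ≤ N, Am M (fun k : ℕ => k.unpair.1 < K ∧ k.unpair.2 ∈ ρ k.unpair.1) := by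
    intro K hK
    induction K with
    | zero => exact (Am.const h False).congr h fun k _ => by simp
    | succ K ih =>
      have h1 := ih (by omega)
      have h2 : Am M (fun k : ℕ => k.unpair.1 = K ∧ k.unpair.2 ∈ ρ K) :=
        (Am.eq h ((AmF.fst h).comp h (AmF.natUnpair h (AmF.id h)))
          (AmF.const h K (AbsCod.mem h K))).and h
          (Am.mem_set h ((AmF.snd h).comp h (AmF.natUnpair h (AmF.id h)))
            (AmF.const h (ρ K) (hρ K (by omega))))
      refine (h1.or h h2).congr h fun k _ => ?_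
      constructor
      · rintro ⟨h3, h4⟩
        rcases Nat.lt_succ_iff_lt_or_eq.1 h3 with h5 | h5
        · exact Or.inl ⟨h5, h4⟩
        · exact Or.inr ⟨h5, h5 ▸ h4⟩
      · rintro (⟨h3, h4⟩ | ⟨h3, h4⟩)
        · exact ⟨by omega, h4⟩
        · subst h3
          exact ⟨by omega, h4⟩
  refine (key N le_rfl).congr h fun k _ => ?_
  simp only [join, Set.mem_ofPred_eq]
  split
  · next h1 => simp [h1]
  · next h1 => simp [h1]

/-- The reals of an inner model are closed under arithmetical operations. -/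
theorem ArN.rl_mem {R : (ℕ → Set ℕ) → ℕ → Prop} (hR : ArN R) {ρ : ℕ → Set ℕ}
    (hρ : ∀ i, rl (ρ i) ∈ M) : rl {n | R ρ n} ∈ M := by
  obtain ⟨N, hN⟩ := hR.supp
  have h1 := rl_join_trunc h N (ρ := ρ) fun i _ => hρ i
  apply rl_mem_of_am h
  refine ((hR.am h).comp h (f := fun n : ℕ => ((join fun i => if i < N then ρ i else ∅ : Set ℕ), n))
    ((AmF.const h _ h1).prod h (AmF.id h))).congr h fun n _ => ?_
  have e : col (join fun i => if i < N then ρ i else ∅) = fun i => if i < N then ρ i else ∅ := by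
    funext i; simp
  simp only [Set.mem_ofPred_eq, e]
  exact hN _ _ (fun i hi => by simp [hi]) n

/-- `(x, J) ↦` the code of the sequence `cons x (col J)`. -/
theorem amF_consJ : AmF M (fun q : Set ℕ × Set ℕ => join (cons q.1 (col q.2))) := by
  have e : (fun q : Set ℕ × Set ℕ => join (cons q.1 (col q.2))) = fun q =>
      {k : ℕ | (k.unpair.1 = 0 ∧ k.unpair.2 ∈ q.1) ∨
        ∃ i : ℕ, k.unpair.1 = i + 1 ∧ Nat.pair i k.unpair.2 ∈ q.2} := by
    funext q
    ext k
    simp only [join, Set.mem_ofPred_eq]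
    rcases h1 : k.unpair.1 with _ | i
    · simp
    · simp [col]
  rw [e]
  refine AmF.setOf h (R := fun (q : Set ℕ × Set ℕ) (k : ℕ) =>
    (k.unpair.1 = 0 ∧ k.unpair.2 ∈ q.1) ∨
        ∃ i : ℕ, k.unpair.1 = i + 1 ∧ Nat.pair i k.unpair.2 ∈ q.2) ?_
  refine Am.or h (Am.and h ?_ ?_) (Am.exA h (R := fun (q : (Set ℕ × Set ℕ) × ℕ) (i : ℕ) =>
    q.2.unpair.1 = i + 1 ∧ Nat.pair i q.2.unpair.2 ∈ q.1.2) (Am.and h ?_ ?_))
  · exact Am.eq h ((AmF.fst h).comp h (AmF.natUnpair h (AmF.snd h)))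
      (AmF.const h 0 (AbsCod.mem h 0))
  · exact Am.mem_set h ((AmF.snd h).comp h (AmF.natUnpair h (AmF.snd h)))
      ((AmF.fst h).comp h (AmF.fst h))
  · exact Am.eq h ((AmF.fst h).comp h (AmF.natUnpair h ((AmF.snd h).comp h (AmF.fst h))))
      (AmF.natSucc h (AmF.snd h))
  · exact Am.mem_set h (AmF.natPair h (AmF.snd h)
      ((AmF.snd h).comp h (AmF.natUnpair h ((AmF.snd h).comp h (AmF.fst h)))))
      ((AmF.snd h).comp h ((AmF.fst h).comp h (AmF.fst h)))

/-- The set of the codes of a set of reals. -/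
noncomputable def rset (D : Set (Set ℕ)) : ZFSet.{0} := ZFSet.range fun x : D => rl x.1

omit h in
theorem mem_rset {D : Set (Set ℕ)} {z : ZFSet.{0}} : z ∈ rset D ↔ ∃ x ∈ D, rl x = z := by
  unfold rset
  rw [ZFSet.mem_range]
  simp

omit h in
theorem rl_mem_rset {D : Set (Set ℕ)} {x : Set ℕ} : rl x ∈ rset D ↔ x ∈ D := by
  rw [mem_rset]
  constructor
  · rintro ⟨y, hy, e⟩
    rw [← rl_inj e]; exact hy
  · intro hx; exact ⟨x, hx, rfl⟩

/-- Third-order definable relations are amenable. -/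
theorem T3.am {PS : Set (Set (Set ℕ))} (hPS : ∀ D ∈ PS, rset D ∈ M)
    {R : (ℕ → Set ℕ) → ℕ → Prop} (hR : T3 {x | rl x ∈ M} PS R) :
    Am M (fun q : Set ℕ × ℕ => R (col q.1) q.2) := by
  induction hR with
  | ar hR => exact hR.am h
  | @par D hD i =>
    have h1 : AmF M (fun q : Set ℕ × ℕ => col q.1 i) :=
      (amF_col h).comp h (f := fun q : Set ℕ × ℕ => (q.1, i))
        ((AmF.fst h).prod h (AmF.const h i (AbsCod.mem h i)))
    refine (Am.mem h ((AmF.code h).comp h h1) (AmF.const h (rset D) (hPS D hD))).congr h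
      fun q _ => ?_
    exact rl_mem_rset.symm
  | not _ ih => exact ih.not h
  | and _ _ ih ih' => exact ih.and h ih'
  | @comp R f hf _ ih =>
    exact ih.comp h (f := fun q : Set ℕ × ℕ => (q.1, f q.2))
      ((AmF.fst h).prod h (AmF.primrec h hf (AmF.snd h)))
  | @subst R G hG hR ih =>
    obtain ⟨N, hN⟩ := hR.supp
    have key : ∀ K, Am M (fun q : (Set ℕ × ℕ) × ℕ => q.2.unpair.1 < K ∧
        q.2.unpair.2 ∈ G q.2.unpair.1 (col q.1.1) q.1.2) := by
      intro K
      induction K with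
      | zero => exact (Am.const h False).congr h fun k _ => by simp
      | succ K ih' =>
        have v1 : AmF M (fun q : (Set ℕ × ℕ) × ℕ => q.2.unpair.1) :=
          (AmF.fst h).comp h (AmF.natUnpair h (AmF.snd h))
        have v2 : AmF M (fun q : (Set ℕ × ℕ) × ℕ => q.2.unpair.2) :=
          (AmF.snd h).comp h (AmF.natUnpair h (AmF.snd h))
        have h2 : Am M (fun q : (Set ℕ × ℕ) × ℕ => q.2.unpair.2 ∈ G K (col q.1.1) q.1.2) := by
          refine (((hG K).am h).comp h (f := fun q : (Set ℕ × ℕ) × ℕ =>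
            (q.1.1, Nat.pair q.1.2 q.2.unpair.2))
            (((AmF.fst h).comp h (AmF.fst h)).prod h
              (AmF.natPair h ((AmF.snd h).comp h (AmF.fst h)) v2))).congr h fun q _ => ?_
          simp
        refine (ih'.or h ((Am.eq h v1 (AmF.const h K (AbsCod.mem h K))).and h h2)).congr h
          fun q _ => ?_
        constructor
        · rintro ⟨h3, h4⟩
          rcases Nat.lt_succ_iff_lt_or_eq.1 h3 with h5 | h5
          · exact Or.inl ⟨h5, h4⟩
          · exact Or.inr ⟨h5, h5 ▸ h4⟩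
        · rintro (⟨h3, h4⟩ | ⟨h3, h4⟩)
          · exact ⟨by omega, h4⟩
          · exact ⟨by omega, h3 ▸ h4⟩
    have hJ := AmF.setOf h (R := fun (q : Set ℕ × ℕ) (k : ℕ) => k.unpair.1 < N ∧
        k.unpair.2 ∈ G k.unpair.1 (col q.1) q.2) (key N)
    refine (ih.comp h (hJ.prod h (AmF.snd h))).congr h fun q _ => ?_
    refine hN _ _ (fun i hi => ?_) q.2
    ext m
    simp [col, hi]
  | @ex R _ ih =>
    refine Am.exA h (R := fun (q : Set ℕ × ℕ) (m : ℕ) => R (col q.1) (Nat.pair q.2 m)) ?_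
    exact ih.comp h (f := fun q : (Set ℕ × ℕ) × ℕ => (q.1.1, Nat.pair q.1.2 q.2))
      (((AmF.fst h).comp h (AmF.fst h)).prod h
        (AmF.natPair h ((AmF.snd h).comp h (AmF.fst h)) (AmF.snd h)))
  | @exR R _ ih =>
    have h1 : Am M (fun q : (Set ℕ × ℕ) × Set ℕ =>
        R (col (join (cons q.2 (col q.1.1)))) q.1.2) :=
      ih.comp h (f := fun q : (Set ℕ × ℕ) × Set ℕ => (join (cons q.2 (col q.1.1)), q.1.2))
        (((amF_consJ h).comp h (f := fun q : (Set ℕ × ℕ) × Set ℕ => (q.2, q.1.1))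
          ((AmF.snd h).prod h ((AmF.fst h).comp h (AmF.fst h)))).prod h
          ((AmF.snd h).comp h (AmF.fst h)))
    refine (Am.ex h (R := fun (q : Set ℕ × ℕ) (x : Set ℕ) =>
      R (col (join (cons x (col q.1)))) q.2) h1).congr h fun q _ => ?_
    refine exists_congr fun x => and_congr Iff.rfl ?_
    have e : col (join (cons x (col q.1))) = cons x (col q.1) := by funext i; simp
    rw [e]

/-- Comprehension: a third-order definable set of reals is in `M`. -/
theorem T3.rset_mem {PS : Set (Set (Set ℕ))} (hPS : ∀ D ∈ PS, rset D ∈ M)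
    {R : (ℕ → Set ℕ) → ℕ → Prop} (hR : T3 {x | rl x ∈ M} PS R) {ρ : ℕ → Set ℕ} {n : ℕ}
    (hρ : ∀ i, rl (ρ i) ∈ M) : rset {x | rl x ∈ M ∧ R (cons x ρ) n} ∈ M := by
  obtain ⟨N, hN⟩ := hR.supp
  have hJ := rl_join_trunc h N (ρ := ρ) fun i _ => hρ i
  have h1 : Am M (fun x : Set ℕ =>
      R (col (join (cons x (col (join fun i => if i < N then ρ i else ∅))))) n) :=
    (T3.am h hPS hR).comp h (f := fun x : Set ℕ =>
      (join (cons x (col (join fun i => if i < N then ρ i else ∅))), n))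
      (((amF_consJ h).comp h (f := fun x : Set ℕ => (x, join fun i => if i < N then ρ i else ∅))
        ((AmF.id h).prod h (AmF.const h _ hJ))).prod h (AmF.const h n (AbsCod.mem h n)))
  have h2 := h1 _ (h.powerset_mem (h.ord_mem Ordinal.omega0))
  refine mem_of_eq ?_ h2
  ext z
  rw [mem_rset, ZFSet.mem_sep, ZFSet.mem_sep, ZFSet.mem_powerset]
  have e : ∀ x : Set ℕ, (R (col (join (cons x (col (join fun i => if i < N then ρ i else ∅))))) n ↔
      R (cons x ρ) n) := by
    intro x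
    have e1 : col (join (cons x (col (join fun i => if i < N then ρ i else ∅)))) =
        cons x (fun i => if i < N then ρ i else ∅) := by
      funext i
      cases i with
      | zero => simp
      | succ i => simp
    rw [e1]
    refine hN _ _ (fun i hi => ?_) n
    cases i with
    | zero => rfl
    | succ i =>
      have : i < N := by omega
      simp [this]
  constructor
  · rintro ⟨x, ⟨hx, h3⟩, rfl⟩
    refine ⟨⟨?_, hx⟩, x, rfl, (e x).2 h3⟩
    intro w hw
    obtain ⟨m, _, rfl⟩ := mem_rl.1 hw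
    exact nat_mem_omg m
  · rintro ⟨⟨_, hz⟩, x, rfl, h3⟩
    exact ⟨x, ⟨hz, (e x).1 h3⟩, rfl⟩

end

end Pool.Agent.Helper44.CL
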